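import Pool.Agent.Helper1.RK.StE
import Pool.Agent.Helper80.RK.M_PDR
import Pool.Agent.Helper44.RK.M_LAM

/-!
# Project RK (MP_de00bc_nt): module EMB

A field of rational functions in many variables, seen as a field of rational functions in one of
them.
-/

set_option autoImplicit false

namespace Pool.Agent.Helper51.RK

open Pool.Agent.Helper1.RK

/-- an additive map with the product rule is a derivation over the integers -/
private theorem mkD (K : Type) [Field K] (δ : K → K) (h1 : ∀ x y, δ (x + y) = δ x + δ y)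
    (h2 : ∀ x y, δ (x * y) = x * δ y + y * δ x) : ∃ D : Derivation ℤ K K, ∀ x, D x = δ x := by
  let A : K →+ K := AddMonoidHom.mk' δ h1
  have h0 : δ 1 = 0 := by
    have h := h2 1 1
    simpa using h
  refine ⟨{ toFun := δ
            map_add' := h1
            map_smul' := ?_
            map_one_eq_zero' := h0
            leibniz' := fun f g => h2 f g }, fun _ => rfl⟩
  intro n f
  have h := map_intCast_smul A ℤ ℤ n f
  simp only [Int.cast_id, zsmul_eq_mul] at h
  rw [Algebra.smul_def, eq_intCast, RingHom.id_apply, zsmul_eq_mul]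
  exact h

/-- a derivation along a homomorphism which kills the variables and the constants is zero -/
private theorem der_zero {F : Type} [Field F] {I : Type} {M : Type} [Field M] (Λ : RF F I →+* M)
    (δ : RF F I → M) (hadd : ∀ x y, δ (x + y) = δ x + δ y)
    (hmul : ∀ x y, δ (x * y) = Λ x * δ y + Λ y * δ x)
    (hX : ∀ i, δ (rv F i) = 0) (hC : ∀ c, δ (rc I c) = 0) (z : RF F I) : δ z = 0 := by
  have hp : ∀ p : MvPolynomial I F, δ (algebraMap (MvPolynomial I F) (RF F I) p) = 0 := by
    intro p
    induction p using MvPolynomial.induction_on with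
    | C a => exact hC a
    | add p q hp hq => rw [map_add, hadd, hp, hq, add_zero]
    | mul_X p i hp =>
      have h := hX i
      unfold rv at h
      rw [map_mul, hmul, hp, h, mul_zero, mul_zero, add_zero]
  obtain ⟨a, b, hb, hz⟩ := IsFractionRing.div_surjective (A := MvPolynomial I F) z
  have hb0 : algebraMap (MvPolynomial I F) (RF F I) b ≠ 0 :=
    (map_ne_zero_iff _ (IsFractionRing.injective (MvPolynomial I F) (RF F I))).2
      (nonZeroDivisors.ne_zero hb)
  have h1 : z * algebraMap (MvPolynomial I F) (RF F I) b = algebraMap (MvPolynomial I F) (RF F I) a := by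
    rw [← hz, div_mul_cancel₀ _ hb0]
  have h2 := hmul z (algebraMap (MvPolynomial I F) (RF F I) b)
  rw [h1, hp, hp, mul_zero, zero_add] at h2
  exact (mul_eq_zero.1 h2.symm).resolve_left ((map_ne_zero Λ).2 hb0)

/-- the partial derivatives -/
private theorem exPd (F : Type) [Field F] [CharZero F] (I : Type) :
    ∃ d : I → RF F I → RF F I, (∀ i x y, d i (x + y) = d i x + d i y) ∧
      (∀ i x y, d i (x * y) = x * d i y + y * d i x) ∧ (∀ i, d i (rv F i) = 1) ∧
      (∀ i j, i ≠ j → d i (rv F j) = 0) ∧ (∀ i c, d i (rc I c) = 0) := by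
  obtain ⟨d, _, h2, h3, h4⟩ := Pool.Agent.Helper80.RK.pPDR F I
  refine ⟨fun i x => d i x, fun i x y => map_add _ _ _, fun i x y => ?_, h2, h3, h4⟩
  have h := (d i).leibniz x y
  simpa only [smul_eq_mul] using h

/-- functions all of whose partial derivatives are zero -/
private theorem cst_of (h2 : StEMC) (F : Type) [Field F] [CharZero F] (I : Type)
    (d : I → RF F I → RF F I) (hadd : ∀ i x y, d i (x + y) = d i x + d i y)
    (hmul : ∀ i x y, d i (x * y) = x * d i y + y * d i x) (h1 : ∀ i, d i (rv F i) = 1)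
    (h0 : ∀ i j, i ≠ j → d i (rv F j) = 0) (hc : ∀ i c, d i (rc I c) = 0) (g : RF F I)
    (hg : ∀ i, d i g = 0) : ∃ c, g = rc I c := by
  classical
  have hp : ∀ i (p : MvPolynomial I F), d i (algebraMap (MvPolynomial I F) (RF F I) p) =
      algebraMap (MvPolynomial I F) (RF F I) (MvPolynomial.pderiv i p) := by
    intro i p
    induction p using MvPolynomial.induction_on with
    | C a =>
      have h := hc i a
      unfold rc at h
      rw [h, MvPolynomial.pderiv_C, map_zero]
    | add p q hp hq => rw [map_add, hadd, hp, hq, map_add, map_add]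
    | mul_X p j hp =>
      rw [map_mul, hmul, hp, Derivation.leibniz, smul_eq_mul, smul_eq_mul, map_add, map_mul, map_mul]
      congr 2
      by_cases hij : i = j
      · subst hij
        have h := h1 i
        unfold rv at h
        rw [h, MvPolynomial.pderiv_X_self, map_one]
      · have h := h0 i j hij
        unfold rv at h
        rw [h, MvPolynomial.pderiv_X_of_ne (Ne.symm hij), map_zero]
  obtain ⟨P, Q, hQ, hz⟩ := IsFractionRing.div_surjective (A := MvPolynomial I F) g
  have hQ0 : Q ≠ 0 := nonZeroDivisors.ne_zero hQ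
  have hinj := IsFractionRing.injective (MvPolynomial I F) (RF F I)
  have hb0 : algebraMap (MvPolynomial I F) (RF F I) Q ≠ 0 := (map_ne_zero_iff _ hinj).2 hQ0
  have e1 : g * algebraMap (MvPolynomial I F) (RF F I) Q = algebraMap (MvPolynomial I F) (RF F I) P := by
    rw [← hz, div_mul_cancel₀ _ hb0]
  obtain ⟨c, hPc⟩ := h2 F I P Q hQ0 (by
    intro i
    apply hinj
    rw [map_mul, map_mul, ← hp, ← hp, ← e1, hmul, hg, mul_zero, add_zero]
    ring)
  refine ⟨c, ?_⟩
  have e2 : g * algebraMap (MvPolynomial I F) (RF F I) Q =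
      rc I c * algebraMap (MvPolynomial I F) (RF F I) Q := by
    rw [e1, hPc, map_mul]
    rfl
  exact mul_right_cancel₀ hb0 e2

/-- the extension of the coefficient field, with derivations and leading coefficients -/
private theorem core (h3 : StDXT) (h4 : StDER) (K k L : Type) [Field K] [Field k] [CharZero k]
    [Field L] [CharZero L] [Algebra k L] (ha : Algebra.IsAlgebraic k L) (I : Type) (i : I)
    (e : ∀ j : I, j ≠ i → Derivation ℤ k k) (θ : K ≃+* RatFunc k) :
    ∃ (Λ : K →+* RatFunc L) (dl : I → Derivation ℤ L L)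
      (Dc : I → Derivation ℤ (RatFunc L) (RatFunc L)) (Dt : Derivation ℤ (RatFunc L) (RatFunc L)),
      (∀ g, θ g = RatFunc.X → Λ g = RatFunc.X) ∧
      (∀ g a, θ g = RatFunc.C a → Λ g = RatFunc.C (algebraMap k L a)) ∧
      (∀ j (h : j ≠ i) a, dl j (algebraMap k L a) = algebraMap k L (e j h a)) ∧
      (∀ j, Over (dl j) 0 (Dc j)) ∧ Over 0 1 Dt ∧ (∀ g, Dt (Λ g) = 0 ↔ Cst (Λ g)) ∧
      (∀ g, ∃ c : K, Λ c = RatFunc.C (Λ g).num.leadingCoeff) := by
  classical
  obtain ⟨M, hMX, hMC, _, _⟩ := Pool.Agent.Helper44.RK.pLAM k L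
  obtain ⟨d1, d2, _, d4⟩ := h4 L
  have hdl : ∀ j : I, ∃ d' : Derivation ℤ L L,
      ∀ (h : j ≠ i) a, d' (algebraMap k L a) = algebraMap k L (e j h a) := by
    intro j
    by_cases h : j ≠ i
    · obtain ⟨d', hd'⟩ := (h3 k L ha).1 (e j h)
      exact ⟨d', fun _ a => hd' a⟩
    · exact ⟨0, fun h' => absurd h' h⟩
  choose dl hdl using hdl
  choose Dc hDc using fun j => d1 (dl j) 0
  obtain ⟨Dt, hDt⟩ := d1 0 1
  have hM : ∀ p : Polynomial k, M (algebraMap (Polynomial k) (RatFunc k) p) =
      algebraMap (Polynomial L) (RatFunc L) (p.map (algebraMap k L)) := by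
    intro p
    induction p using Polynomial.induction_on' with
    | add p q hp hq => rw [map_add, map_add, Polynomial.map_add, map_add, hp, hq]
    | monomial n a =>
      rw [Polynomial.map_monomial, ← Polynomial.C_mul_X_pow_eq_monomial, ← Polynomial.C_mul_X_pow_eq_monomial,
        map_mul, map_mul, map_pow, map_pow, map_mul, map_pow,
        RatFunc.algebraMap_X, RatFunc.algebraMap_C, RatFunc.algebraMap_X, RatFunc.algebraMap_C, hMX, hMC]
  refine ⟨M.comp (θ : K →+* RatFunc k), dl, Dc, Dt, ?_, ?_, fun j h a => hdl j h a, hDc, hDt,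
    fun g => d4 Dt hDt _, ?_⟩
  · intro g hg
    rw [RingHom.comp_apply, RingHom.coe_coe, hg, hMX]
  · intro g a hg
    rw [RingHom.comp_apply, RingHom.coe_coe, hg, hMC]
  · intro g
    refine ⟨θ.symm (RatFunc.C (θ g).num.leadingCoeff), ?_⟩
    rw [RingHom.comp_apply, RingHom.coe_coe, RingEquiv.apply_symm_apply, hMC, RingHom.comp_apply,
      RingHom.coe_coe]
    congr 1
    have hd0 : (θ g).denom ≠ 0 := RatFunc.denom_ne_zero _
    have hm : (θ g).denom.Monic := RatFunc.monic_denom _
    have hmL : ((θ g).denom.map (algebraMap k L)).Monic := hm.map _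
    have hg : M (θ g) = algebraMap (Polynomial L) (RatFunc L) ((θ g).num.map (algebraMap k L)) /
        algebraMap (Polynomial L) (RatFunc L) ((θ g).denom.map (algebraMap k L)) := by
      conv_lhs => rw [← RatFunc.num_div_denom (θ g), map_div₀, hM, hM]
    have hq : algebraMap (Polynomial L) (RatFunc L) ((θ g).denom.map (algebraMap k L)) ≠ 0 :=
      RatFunc.algebraMap_ne_zero hmL.ne_zero
    have hq' : algebraMap (Polynomial L) (RatFunc L) (M (θ g)).denom ≠ 0 :=
      RatFunc.algebraMap_ne_zero (RatFunc.denom_ne_zero _)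
    have h1 : algebraMap (Polynomial L) (RatFunc L) (M (θ g)).num /
        algebraMap (Polynomial L) (RatFunc L) (M (θ g)).denom =
        algebraMap (Polynomial L) (RatFunc L) ((θ g).num.map (algebraMap k L)) /
        algebraMap (Polynomial L) (RatFunc L) ((θ g).denom.map (algebraMap k L)) := by
      rw [RatFunc.num_div_denom, hg]
    rw [div_eq_div_iff hq' hq, ← map_mul, ← map_mul] at h1
    have h2 := RatFunc.algebraMap_injective L h1
    have h5 := congrArg Polynomial.leadingCoeff h2
    rw [Polynomial.leadingCoeff_mul, Polynomial.leadingCoeff_mul, hmL.leadingCoeff,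
      (RatFunc.monic_denom (M (θ g))).leadingCoeff, mul_one, mul_one,
      Polynomial.leadingCoeff_map] at h5
    exact h5.symm

/-- module EMB -/
theorem pEMB (h1 : StEM1) (h2 : StEMC) (h3 : StDXT) (h4 : StDER) : StEMB := by
  intro F _ _ I
  obtain ⟨d, dadd, dmul, done, dz, dc⟩ := exPd F I
  choose pd hpd using fun i => mkD (RF F I) (d i) (dadd i) (dmul i)
  have hch : CharZero (RF F I) := charZero_of_injective_algebraMap (algebraMap F (RF F I)).injective
  have hrc : ∀ c, algebraMap F (RF F I) c = rc I c := by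
    intro c
    unfold rc
    rw [IsScalarTower.algebraMap_apply F (MvPolynomial I F) (RF F I), MvPolynomial.algebraMap_eq]
  refine ⟨RF F I, inferInstance, hch, inferInstance, rv F, pd, RingEquiv.refl _, fun i => rfl,
    fun c => (hrc c).symm, fun i => ?_, fun i j hij => ?_, fun i c => ?_, fun g hg => ?_, ?_⟩
  · rw [hpd, done]
  · rw [hpd, dz i j hij]
  · rw [hpd, hrc, dc]
  · obtain ⟨c, hc⟩ := cst_of h2 F I d dadd dmul done dz dc g (fun i => by rw [← hpd, hg])
    exact ⟨c, by rw [hc, hrc]⟩
  intro i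
  obtain ⟨θ, hθX, hθv, hθc⟩ := h1 F I i
  obtain ⟨d', dadd', dmul', done', dz', dc'⟩ := exPd F {j : I // j ≠ i}
  choose pd' hpd' using fun j => mkD (RF F {j : I // j ≠ i}) (d' j) (dadd' j) (dmul' j)
  have hck : CharZero (RF F {j : I // j ≠ i}) :=
    charZero_of_injective_algebraMap (algebraMap F (RF F {j : I // j ≠ i})).injective
  have hcL : CharZero (AlgebraicClosure (RF F {j : I // j ≠ i})) :=
    charZero_of_injective_algebraMap
      (algebraMap (RF F {j : I // j ≠ i}) (AlgebraicClosure (RF F {j : I // j ≠ i}))).injective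
  obtain ⟨Λ, dl, Dc, Dt, l1, l2, l3, l4, l5, l6, l7⟩ := core h3 h4 (RF F I) (RF F {j : I // j ≠ i})
    (AlgebraicClosure (RF F {j : I // j ≠ i})) inferInstance I i (fun j h => pd' ⟨j, h⟩) θ
  have hX : Λ (rv F i) = RatFunc.X := l1 _ hθX
  have hV : ∀ (j : I) (h : j ≠ i), Λ (rv F j) =
      RatFunc.C (algebraMap (RF F {j : I // j ≠ i}) (AlgebraicClosure (RF F {j : I // j ≠ i}))
        (rv F (⟨j, h⟩ : {j : I // j ≠ i}))) := fun j h => l2 _ _ (hθv j h)
  have hC : ∀ c : F, Λ (rc I c) =
      RatFunc.C (algebraMap (RF F {j : I // j ≠ i}) (AlgebraicClosure (RF F {j : I // j ≠ i}))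
        (rc {j : I // j ≠ i} c)) := fun c => l2 _ _ (hθc c)
  have ht : ∀ g, Λ (pd i g) = Dt (Λ g) := by
    intro g
    rw [← sub_eq_zero]
    refine der_zero Λ (fun g => Λ (pd i g) - Dt (Λ g)) ?_ ?_ ?_ ?_ g
    · intro x y
      simp only [map_add]
      ring
    · intro x y
      simp only [map_mul, map_add, Derivation.leibniz, smul_eq_mul]
      ring
    · intro j
      by_cases h : j = i
      · subst h
        show Λ (pd j (rv F j)) - Dt (Λ (rv F j)) = 0
        rw [hpd, done, map_one, hX, l5.2, sub_self]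
      · show Λ (pd i (rv F j)) - Dt (Λ (rv F j)) = 0
        rw [hpd, dz i j (Ne.symm h), map_zero, hV j h, l5.1]
        simp
    · intro c
      show Λ (pd i (rc I c)) - Dt (Λ (rc I c)) = 0
      rw [hpd, dc, map_zero, hC, l5.1]
      simp
  have hj : ∀ j, j ≠ i → ∀ g, Λ (pd j g) = Dc j (Λ g) := by
    intro j hji g
    rw [← sub_eq_zero]
    refine der_zero Λ (fun g => Λ (pd j g) - Dc j (Λ g)) ?_ ?_ ?_ ?_ g
    · intro x y
      simp only [map_add]
      ring
    · intro x y
      simp only [map_mul, map_add, Derivation.leibniz, smul_eq_mul]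
      ring
    · intro l
      show Λ (pd j (rv F l)) - Dc j (Λ (rv F l)) = 0
      by_cases h : l = i
      · subst h
        rw [hpd, dz j l hji, map_zero, hX, (l4 j).2, sub_self]
      · rw [hpd, hV l h, (l4 j).1, l3 j hji, hpd']
        by_cases hjl : j = l
        · subst hjl
          rw [done, done', map_one, map_one, map_one, sub_self]
        · rw [dz j l hjl, dz' ⟨j, hji⟩ ⟨l, h⟩ (fun hh => hjl (congrArg Subtype.val hh)), map_zero,
            map_zero, map_zero, sub_self]
    · intro c
      show Λ (pd j (rc I c)) - Dc j (Λ (rc I c)) = 0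
      rw [hpd, dc, map_zero, hC, (l4 j).1, l3 j hji, hpd', dc', map_zero, map_zero, sub_self]
  refine ⟨AlgebraicClosure (RF F {j : I // j ≠ i}), inferInstance, hcL, inferInstance, Λ, dl, Dc, Dt,
    hX, l4, l5, ht, hj, ?_, l7⟩
  intro g
  rw [← l6 g, ← ht g]
  exact (map_eq_zero Λ).symm

end Pool.Agent.Helper51.RK
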