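import Pool.Agent.Helper1.RK.StF

/-!
# Project RK (MP_de00bc_nt): module CSQ (no constant twist)
-/

set_option autoImplicit false

namespace Pool.Agent.Helper51.RK

open Polynomial Pool.Agent.Helper1.RK

/-- a function which is finite at infinity gives a cubic without zero or pole at infinity -/
private theorem wei_deg_zero {k : Type} [Field k] (a b : k) (hroot : ∀ x : k, x ^ 3 + a * x + b ≠ 0)
    (w : RatFunc k) (hw : RatFunc.intDegree w ≤ 0) : RatFunc.intDegree (wei a b w) = 0 := by
  have hQm : w.denom.Monic := RatFunc.monic_denom w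
  have hPn : w.num.natDegree ≤ w.denom.natDegree := by
    unfold RatFunc.intDegree at hw
    omega
  have hw0 : w = algebraMap k[X] (RatFunc k) w.num / algebraMap k[X] (RatFunc k) w.denom :=
    (RatFunc.num_div_denom w).symm
  generalize w.num = P at *
  generalize w.denom = Q at *
  set n := Q.natDegree with hn
  have hQ0 : Q ≠ 0 := hQm.ne_zero
  set N : k[X] := P ^ 3 + (C a * P) * Q ^ 2 + C b * Q ^ 3 with hN
  have hQ2 : (Q ^ 2).natDegree ≤ 2 * n := natDegree_pow_le_of_le 2 le_rfl
  have hCP : (C a * P).natDegree ≤ n := (natDegree_C_mul_le _ _).trans hPn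
  have hcoeff : N.coeff (3 * n) = (P.coeff n) ^ 3 + a * P.coeff n + b := by
    have e1 : (P ^ 3).coeff (3 * n) = (P.coeff n) ^ 3 := coeff_pow_of_natDegree_le hPn
    have e2 : ((C a * P) * Q ^ 2).coeff (3 * n) = a * P.coeff n := by
      have e3 : 3 * n = n + 2 * n := by ring
      rw [e3, coeff_mul_add_eq_of_natDegree_le hCP hQ2, coeff_C_mul, coeff_pow_of_natDegree_le le_rfl,
        hQm.coeff_natDegree]
      ring
    have e4 : (C b * Q ^ 3).coeff (3 * n) = b := by
      rw [coeff_C_mul, coeff_pow_of_natDegree_le le_rfl, hQm.coeff_natDegree]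
      ring
    rw [hN, coeff_add, coeff_add, e1, e2, e4]
  have hdeg : N.natDegree ≤ 3 * n := by
    have e1 : (P ^ 3).natDegree ≤ 3 * n := natDegree_pow_le_of_le 3 hPn
    have e2 : ((C a * P) * Q ^ 2).natDegree ≤ 3 * n := by
      have := natDegree_mul_le_of_le hCP hQ2
      omega
    have e3 : (C b * Q ^ 3).natDegree ≤ 3 * n :=
      (natDegree_C_mul_le _ _).trans (natDegree_pow_le_of_le 3 le_rfl)
    exact natDegree_add_le_of_degree_le (natDegree_add_le_of_degree_le e1 e2) e3
  have hne : N.coeff (3 * n) ≠ 0 := by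
    rw [hcoeff]
    exact hroot _
  have hNd : N.natDegree = 3 * n := natDegree_eq_of_le_of_coeff_ne_zero hdeg hne
  have hN0 : N ≠ 0 := by
    intro h
    rw [h, coeff_zero] at hne
    exact hne rfl
  have hq : algebraMap k[X] (RatFunc k) Q ≠ 0 := RatFunc.algebraMap_ne_zero hQ0
  have hwei : wei a b w = algebraMap k[X] (RatFunc k) N / algebraMap k[X] (RatFunc k) (Q ^ 3) := by
    unfold wei
    rw [hw0, hN]
    simp only [map_add, map_mul, map_pow, RatFunc.algebraMap_C]
    field_simp
  rw [hwei, RatFunc.intDegree_div (RatFunc.algebraMap_ne_zero hN0)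
    (RatFunc.algebraMap_ne_zero (pow_ne_zero 3 hQ0)), RatFunc.intDegree_polynomial,
    RatFunc.intDegree_polynomial, hNd, hQm.natDegree_pow, ← hn, sub_self]

/-- the extension of the coefficient field on polynomials and degrees -/
private theorem lam_map {k L : Type} [Field k] [Field L] [Algebra k L] (Λ : RatFunc k →+* RatFunc L)
    (hX : Λ RatFunc.X = RatFunc.X) (hC : ∀ a, Λ (RatFunc.C a) = RatFunc.C (algebraMap k L a)) :
    (∀ p : k[X], Λ (algebraMap k[X] (RatFunc k) p) =
      algebraMap L[X] (RatFunc L) (p.map (algebraMap k L))) ∧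
    (∀ g, RatFunc.intDegree (Λ g) = RatFunc.intDegree g) := by
  have h1 : ∀ p : k[X], Λ (algebraMap k[X] (RatFunc k) p) =
      algebraMap L[X] (RatFunc L) (p.map (algebraMap k L)) := by
    intro p
    induction p using Polynomial.induction_on' with
    | add p q hp hq => rw [map_add, map_add, Polynomial.map_add, map_add, hp, hq]
    | monomial n a =>
      rw [Polynomial.map_monomial, ← Polynomial.C_mul_X_pow_eq_monomial,
        ← Polynomial.C_mul_X_pow_eq_monomial, map_mul, map_mul, map_pow, map_pow, map_mul, map_pow,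
        RatFunc.algebraMap_X, RatFunc.algebraMap_C, RatFunc.algebraMap_X, RatFunc.algebraMap_C, hX, hC]
  refine ⟨h1, fun g => ?_⟩
  by_cases hg : g = 0
  · rw [hg, map_zero, RatFunc.intDegree_zero, RatFunc.intDegree_zero]
  have hn : g.num ≠ 0 := RatFunc.num_ne_zero hg
  have hd : g.denom ≠ 0 := RatFunc.denom_ne_zero g
  have hn' : g.num.map (algebraMap k L) ≠ 0 := (Polynomial.map_ne_zero_iff (algebraMap k L).injective).2 hn
  have hd' : g.denom.map (algebraMap k L) ≠ 0 :=
    (Polynomial.map_ne_zero_iff (algebraMap k L).injective).2 hd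
  conv_lhs => rw [← RatFunc.num_div_denom g]
  rw [map_div₀, h1, h1, RatFunc.intDegree_div (RatFunc.algebraMap_ne_zero hn')
    (RatFunc.algebraMap_ne_zero hd'), RatFunc.intDegree_polynomial, RatFunc.intDegree_polynomial,
    Polynomial.natDegree_map, Polynomial.natDegree_map]
  rfl

/-- the extension of the coefficient field commutes with the derivative -/
private theorem lam_der {k L : Type} [Field k] [Field L] [Algebra k L] (Λ : RatFunc k →+* RatFunc L)
    (hX : Λ RatFunc.X = RatFunc.X) (hC : ∀ a, Λ (RatFunc.C a) = RatFunc.C (algebraMap k L a))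
    (Dk : Derivation ℤ (RatFunc k) (RatFunc k)) (DL : Derivation ℤ (RatFunc L) (RatFunc L))
    (hk : Over 0 1 Dk) (hL : Over 0 1 DL) (g : RatFunc k) : Λ (Dk g) = DL (Λ g) := by
  have h1 : ∀ p : k[X], Λ (Dk (algebraMap k[X] (RatFunc k) p)) =
      DL (Λ (algebraMap k[X] (RatFunc k) p)) := by
    intro p
    induction p using Polynomial.induction_on with
    | C a =>
      rw [RatFunc.algebraMap_C, hk.1, hC, hC, hL.1]
      simp
    | add p q hp hq => rw [map_add, map_add, map_add, map_add, map_add, hp, hq]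
    | monomial n a h =>
      rw [pow_succ, ← mul_assoc, map_mul (algebraMap k[X] (RatFunc k))]
      generalize algebraMap k[X] (RatFunc k) (C a * X ^ n) = y at h ⊢
      rw [Derivation.leibniz, map_add, smul_eq_mul, smul_eq_mul, map_mul, map_mul, h,
        RatFunc.algebraMap_X, hk.2, hX, map_one, map_mul, Derivation.leibniz,
        smul_eq_mul, smul_eq_mul, hX, hL.2]
  have hd : algebraMap k[X] (RatFunc k) g.denom ≠ 0 :=
    RatFunc.algebraMap_ne_zero (RatFunc.denom_ne_zero g)
  have h2 : g * algebraMap k[X] (RatFunc k) g.denom = algebraMap k[X] (RatFunc k) g.num := by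
    conv_lhs => rw [← RatFunc.num_div_denom g]
    rw [RatFunc.num_div_denom g]
    nth_rw 1 [← RatFunc.num_div_denom g]
    exact div_mul_cancel₀ _ hd
  have h3 := h1 g.num
  rw [← h2, Derivation.leibniz, map_mul, Derivation.leibniz, map_add, smul_eq_mul, smul_eq_mul,
    smul_eq_mul, smul_eq_mul, map_mul, map_mul, h1] at h3
  have h4 := add_left_cancel h3
  exact mul_left_cancel₀ ((map_ne_zero Λ).2 hd) h4

/-- an additive map with the product rule is a derivation over the integers -/
private theorem mkD' (K : Type) [Field K] (δ : K → K) (h1 : ∀ x y, δ (x + y) = δ x + δ y)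
    (h2 : ∀ x y, δ (x * y) = x * δ y + y * δ x) : ∃ D : Derivation ℤ K K, ∀ x, D x = δ x := by
  let A : K →+ K := AddMonoidHom.mk' δ h1
  have h0 : δ 1 = 0 := by
    have h := h2 1 1
    simpa using h
  refine ⟨{ toFun := δ
            map_add' := h1
            map_smul' := ?_
            map_one_eq_zero' := h0
            leibniz' := fun f g => h2 f g }, fun _ => rfl⟩
  intro n f
  have h := map_intCast_smul A ℤ ℤ n f
  simp only [Int.cast_id, zsmul_eq_mul] at h
  rw [Algebra.smul_def, eq_intCast, RingHom.id_apply, zsmul_eq_mul]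
  exact h

/-- the main argument over an algebraically closed extension -/
private theorem core (h1 : StOMG) (h2 : StGMQ) (h5 : StLAM) (h6 : StDER) (k L : Type) [Field k]
    [CharZero k] [Field L] [CharZero L] [IsAlgClosed L] [Algebra k L] (j : k)
    (d : Derivation ℤ L L) (hd : d (algebraMap k L j) = 1) (c : k) (w g : RatFunc k) (hc : c ≠ 0)
    (hg : g ≠ 0) (hf0 : wei j j (RatFunc.X : RatFunc k) ≠ 0) (hw0 : wei j j w ≠ 0)
    (hrel : wei j j RatFunc.X * wei j j w = RatFunc.C c * g ^ 2) (hnc : ¬ Cst w)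
    (hpos : 0 < RatFunc.intDegree w) : IsSquare c := by
  obtain ⟨Dk, hDk⟩ := (h6 k).1 0 1
  obtain ⟨DL, hDL⟩ := (h6 L).1 0 1
  obtain ⟨Λ, hΛX, hΛC, hΛc, -⟩ := h5 k L
  have hinj : Function.Injective (algebraMap k L) := (algebraMap k L).injective
  have hΛi : Function.Injective Λ := Λ.injective
  obtain ⟨s, hs⟩ := IsAlgClosed.exists_pow_nat_eq (algebraMap k L c) (n := 2) (by norm_num)
  obtain ⟨hΛp, hΛdeg⟩ := lam_map Λ hΛX hΛC
  have hder := lam_der Λ hΛX hΛC Dk DL hDk hDL
  have hs0 : s ≠ 0 := by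
    intro h
    rw [h, zero_pow two_ne_zero] at hs
    exact hc (hinj (by rw [← hs, map_zero]))
  have hwei : ∀ u : RatFunc k, Λ (wei j j u) = wei (algebraMap k L j) (algebraMap k L j) (Λ u) := by
    intro u
    unfold wei
    rw [map_add, map_add, map_pow, map_mul, hΛC]
  -- the discriminant
  have hj0 : algebraMap k L j ≠ 0 := by
    intro h
    rw [h, map_zero] at hd
    exact zero_ne_one hd
  have hdisc : 4 * algebraMap k L j ^ 3 + 27 * algebraMap k L j ^ 2 ≠ 0 := by
    intro h
    have e1 : algebraMap k L j ^ 2 * (4 * algebraMap k L j + 27) = 0 := by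
      rw [← h]
      ring
    rcases mul_eq_zero.1 e1 with e2 | e2
    · exact hj0 (pow_eq_zero_iff two_ne_zero |>.1 e2)
    · have e3 := congrArg d e2
      have e4 : (27 : L) = ((27 : ℕ) : L) := by norm_num
      have e5 : (4 : L) = ((4 : ℕ) : L) := by norm_num
      rw [map_zero, map_add, Derivation.leibniz, hd, e4, e5, Derivation.map_natCast,
        Derivation.map_natCast] at e3
      simp at e3
  -- the constant
  have hncL : ¬ Cst (Λ w) := fun h => hnc ((hΛc w).1 h)
  have hΛg : Λ g ≠ 0 := (map_ne_zero Λ).2 hg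
  have hCs : (RatFunc.C s : RatFunc L) ≠ 0 := by
    intro h
    exact hs0 ((map_eq_zero _).1 h)
  have hrelL : wei (algebraMap k L j) (algebraMap k L j) RatFunc.X *
      wei (algebraMap k L j) (algebraMap k L j) (Λ w) = (RatFunc.C s * Λ g) ^ 2 := by
    have e1 := congrArg Λ hrel
    rw [map_mul, hwei, hwei, hΛX, map_mul, hΛC, map_pow, ← hs, map_pow] at e1
    rw [e1]
    ring
  obtain ⟨e', he'⟩ := h1 L DL (algebraMap k L j) (algebraMap k L j) (Λ w) (RatFunc.C s * Λ g) hDL hdisc
    hncL (mul_ne_zero hCs hΛg) hrelL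
  have hη : Λ (Dk w * wei j j RatFunc.X / g) = RatFunc.C (e' * s) := by
    rw [map_div₀, map_mul, hwei, hΛX, hder, map_mul]
    rw [div_eq_iff (mul_ne_zero hCs hΛg)] at he'
    rw [div_eq_iff hΛg, he']
    ring
  obtain ⟨e, he⟩ := (hΛc _).1 ⟨_, hη⟩
  have hes : algebraMap k L e = e' * s := by
    rw [he, hΛC] at hη
    exact RatFunc.C_injective hη
  have he2 : Dk w * wei j j RatFunc.X = RatFunc.C e * g := by
    rw [div_eq_iff hg] at he
    exact he
  have hDw : Dk w ≠ 0 := fun h => hnc (((h6 k).2.2.2 Dk hDk w).1 h)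
  have he0 : e ≠ 0 := by
    intro h
    rw [h, map_zero, zero_mul] at he2
    exact mul_ne_zero hDw hf0 he2
  have hmain : RatFunc.C c * (Dk w ^ 2 * wei j j RatFunc.X) = RatFunc.C (e ^ 2) * wei j j w := by
    apply mul_right_cancel₀ hf0
    calc RatFunc.C c * (Dk w ^ 2 * wei j j RatFunc.X) * wei j j RatFunc.X
        = RatFunc.C c * (Dk w * wei j j RatFunc.X) ^ 2 := by ring
      _ = RatFunc.C c * (RatFunc.C e * g) ^ 2 := by rw [he2]
      _ = RatFunc.C e ^ 2 * (RatFunc.C c * g ^ 2) := by ring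
      _ = RatFunc.C e ^ 2 * (wei j j RatFunc.X * wei j j w) := by rw [hrel]
      _ = RatFunc.C (e ^ 2) * wei j j w * wei j j RatFunc.X := by
        rw [map_pow]
        ring
  have hmainL : DL (Λ w) ^ 2 * wei (algebraMap k L j) (algebraMap k L j) RatFunc.X =
      RatFunc.C ((algebraMap k L e / s) ^ 2) * wei (algebraMap k L j) (algebraMap k L j) (Λ w) := by
    have e1 := congrArg Λ hmain
    rw [map_mul, map_mul, map_mul, map_pow, hwei, hwei, hΛX, hder, hΛC, hΛC, ← hs, map_pow,
      map_pow (algebraMap k L), map_pow (RatFunc.C : L →+* RatFunc L)] at e1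
    rw [div_pow, map_div₀, map_pow, map_pow, div_mul_eq_mul_div, eq_div_iff (pow_ne_zero 2 hCs), ← e1]
    ring
  have hκ0 : algebraMap k L e / s ≠ 0 := div_ne_zero ((map_ne_zero_iff _ hinj).2 he0) hs0
  obtain ⟨n, hn⟩ := h2 L d DL (algebraMap k L j) (algebraMap k L e / s) (Λ w) hDL hd hκ0
    (by rw [hΛdeg]; exact hpos) hmainL
  have hn0 : (n : k) ≠ 0 := by
    intro h
    have h' : n = 0 := by exact_mod_cast h
    rw [h', Int.cast_zero] at hn
    exact hκ0 hn
  have hnL : (n : L) ≠ 0 := by
    rw [← hn]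
    exact hκ0
  refine ⟨e / n, hinj ?_⟩
  rw [← hs, map_mul, map_div₀, map_intCast]
  have e3 : algebraMap k L e = n * s := by
    rw [div_eq_iff hs0] at hn
    exact hn
  rw [e3]
  field_simp

/-- module CSQ -/
theorem pCSQ (h1 : StOMG) (h2 : StGMQ) (h3 : StNRT) (h4 : StDXT) (h5 : StLAM) (h6 : StDER)
    (h7 : StTOP) : StCSQ := by
  intro F _ _ c w g hc hg hrel
  have hck : CharZero (RatFunc F) := charZero_of_injective_algebraMap (algebraMap F (RatFunc F)).injective
  obtain ⟨d0, hd0⟩ := (h6 F).1 0 1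
  obtain ⟨d1, hd1⟩ := mkD' (RatFunc F) (fun x => d0 x) (fun x y => map_add _ _ _) (fun x y => by
    have h := d0.leibniz x y
    simpa only [smul_eq_mul] using h)
  have hd1X : d1 RatFunc.X = 1 := by
    rw [hd1]
    exact hd0.2
  have hNRT : ∀ x : RatFunc F, x ^ 3 + RatFunc.X * x + RatFunc.X ≠ 0 := h3 F
  have hcL : CharZero (AlgebraicClosure (RatFunc F)) :=
    charZero_of_injective_algebraMap (algebraMap (RatFunc F) (AlgebraicClosure (RatFunc F))).injective
  obtain ⟨d, hd⟩ := (h4 (RatFunc F) (AlgebraicClosure (RatFunc F)) inferInstance).1 d1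
  have hdj : d (algebraMap (RatFunc F) (AlgebraicClosure (RatFunc F)) RatFunc.X) = 1 := by
    rw [hd, hd1X, map_one]
  -- degrees
  have hf3 : RatFunc.intDegree (wei (RatFunc.X : RatFunc F) RatFunc.X RatFunc.X) = 3 :=
    ((h7 (RatFunc F)).2.2.2.1 _ _).2.1
  have hf0 : wei (RatFunc.X : RatFunc F) RatFunc.X (RatFunc.X : RatFunc (RatFunc F)) ≠ 0 :=
    ((h7 (RatFunc F)).2.2.2.1 _ _).1
  have hCc : (RatFunc.C c : RatFunc (RatFunc F)) ≠ 0 := by
    intro h
    exact hc ((map_eq_zero _).1 h)
  have hg2 : g ^ 2 ≠ 0 := pow_ne_zero 2 hg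
  have hw0 : wei (RatFunc.X : RatFunc F) RatFunc.X w ≠ 0 := by
    intro h
    rw [h, mul_zero] at hrel
    exact mul_ne_zero hCc hg2 hrel.symm
  have hdeg : 3 + RatFunc.intDegree (wei (RatFunc.X : RatFunc F) RatFunc.X w) =
      2 * RatFunc.intDegree g := by
    have e1 := congrArg RatFunc.intDegree hrel
    rw [RatFunc.intDegree_mul hf0 hw0, RatFunc.intDegree_mul hCc hg2, hf3, RatFunc.intDegree_C, pow_two,
      RatFunc.intDegree_mul hg hg] at e1
    omega
  have hpos : 0 < RatFunc.intDegree w := by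
    by_contra hcon
    have e1 := wei_deg_zero (RatFunc.X : RatFunc F) RatFunc.X hNRT w (not_lt.1 hcon)
    omega
  have hnc : ¬ Cst w := by
    rintro ⟨a, ha⟩
    rw [ha, RatFunc.intDegree_C] at hpos
    exact lt_irrefl _ hpos
  exact core h1 h2 h5 h6 (RatFunc F) (AlgebraicClosure (RatFunc F)) RatFunc.X d hdj c w g hc hg hf0 hw0
    hrel hnc hpos

end Pool.Agent.Helper51.RK
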